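import Pool.Agent.H72.BF.Targets
import Pool.Agent.H72.BF.Targets2

/-!
# Board bf_modules, module PSF: heights of exceptional irreducible polynomials in two logarithms
-/

open Polynomial Finset Filter

namespace Pool.Agent.H41.BF

open Pool.Agent.H72.BF

/-- the exponent vector of a monomial -/
noncomputable def mf {e : ℕ} (μ : Mon 2 e) : Fin 2 →₀ ℕ :=
  Finsupp.equivFunOnFinite.symm (fun i => (μ.1 i : ℕ))

theorem mf_apply {e : ℕ} (μ : Mon 2 e) (i : Fin 2) : mf μ i = (μ.1 i : ℕ) := rfl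

theorem mf_inj {e : ℕ} : Function.Injective (mf (e := e)) := by
  intro μ ν h
  apply Subtype.ext
  funext i
  apply Fin.ext
  have := congrArg (fun f => f i) h
  simpa [mf_apply] using this

theorem exists_mf {e : ℕ} (m : Fin 2 →₀ ℕ) (h : m.sum (fun _ k => k) ≤ e) :
    ∃ μ : Mon 2 e, mf μ = m := by
  have h1 : m.sum (fun _ k => k) = m 0 + m 1 := by
    rw [Finsupp.sum_fintype _ _ (by simp), Fin.sum_univ_two]
  rw [h1] at h
  refine ⟨⟨fun i => ⟨m i, ?_⟩, ?_⟩, ?_⟩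
  · fin_cases i
    · show m 0 < e + 1
      omega
    · show m 1 < e + 1
      omega
  · rw [Fin.sum_univ_two]
    exact h
  · ext i
    rfl

theorem aeval_mon {R S : Type*} [CommRing R] [CommRing S] [Algebra R S] (e : ℕ)
    (p : MvPolynomial (Fin 2) R) (hp : p.totalDegree ≤ e) (x : Fin 2 → S) :
    MvPolynomial.aeval x p = ∑ μ : Mon 2 e, algebraMap R S (p.coeff (mf μ)) *
      (x 0 ^ (μ.1 0 : ℕ) * x 1 ^ (μ.1 1 : ℕ)) := by
  classical
  rw [MvPolynomial.aeval_def, MvPolynomial.eval₂_eq']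
  have h1 : ∑ μ : Mon 2 e, algebraMap R S (p.coeff (mf μ)) *
      (x 0 ^ (μ.1 0 : ℕ) * x 1 ^ (μ.1 1 : ℕ)) = ∑ m ∈ (univ : Finset (Mon 2 e)).image mf,
      algebraMap R S (p.coeff m) * ∏ i, x i ^ m i := by
    rw [Finset.sum_image (fun a _ b _ h => mf_inj h)]
    refine Finset.sum_congr rfl fun μ _ => ?_
    rw [Fin.prod_univ_two]
    rfl
  rw [h1]
  refine Finset.sum_subset ?_ ?_
  · intro m hm
    obtain ⟨μ, hμ⟩ := exists_mf m ((MvPolynomial.le_totalDegree hm).trans hp)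
    exact Finset.mem_image.2 ⟨μ, Finset.mem_univ _, hμ⟩
  · intro m _ hm
    rw [MvPolynomial.notMem_support_iff.1 hm, map_zero, zero_mul]

theorem pow_indep {K F : Type*} [Field K] [Field F] [Algebra K F] {t : F}
    (ht : Transcendental K t) (e : ℕ) : LinearIndependent K (fun i : Fin (e + 1) => t ^ (i : ℕ)) := by
  rw [Fintype.linearIndependent_iff]
  intro g hg i
  let p : K[X] := ∑ i : Fin (e + 1), C (g i) * X ^ (i : ℕ)
  have h1 : aeval t p = 0 := by
    simp only [p, map_sum, map_mul, aeval_C, map_pow, aeval_X]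
    rw [← hg]
    refine Finset.sum_congr rfl fun i _ => ?_
    rw [Algebra.smul_def]
  have h2 : p = 0 := by
    by_contra h
    exact ht ⟨p, h, h1⟩
  have h3 : p.coeff i = g i := by
    simp only [p, finsetSum_coeff, coeff_C_mul, coeff_X_pow]
    rw [Finset.sum_eq_single i]
    · simp
    · intro j _ hj
      rw [if_neg (fun h => hj (Fin.ext h.symm)), mul_zero]
    · intro h
      exact absurd (Finset.mem_univ i) h
  rw [← h3, h2, coeff_zero]

theorem transc {H : ℕ → ℝ} (P : Pkg H) {t : P.F} (ht : t ∉ P.kb) : Transcendental P.kb t := by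
  intro h
  apply ht
  rw [mem_algebraicClosure_iff]
  have h2 : IsAlgebraic P.kk t := by
    have h3 : Algebra.IsAlgebraic P.kk P.kb := inferInstance
    exact h.restrictScalars P.kk
  exact h2

theorem dim_contra {H : ℕ → ℝ} (P : Pkg H) (hS : T_SUMA) {t u : P.F}
    (ht : Transcendental P.kb t) {d e r : ℕ} (he : e = 2 * d + d ^ 2)
    (hr : (e + 2).choose 2 ≤ d ^ 2 + r) (v : Fin r → Mon 2 e → P.kb)
    (hv : LinearIndependent P.kb v)
    (hker : ∀ s, ∑ μ, ((v s μ : P.kb) : P.F) * (t ^ (μ.1 0 : ℕ) * u ^ (μ.1 1 : ℕ)) = 0) :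
    False := by
  classical
  let w : Mon 2 e → P.F := fun μ => t ^ (μ.1 0 : ℕ) * u ^ (μ.1 1 : ℕ)
  let φ : (Mon 2 e → P.kb) →ₗ[P.kb] P.F := Fintype.linearCombination P.kb w
  have hφ : ∀ f, φ f = ∑ μ, ((f μ : P.kb) : P.F) * w μ := by
    intro f
    rw [Fintype.linearCombination_apply]
    rfl
  have h1 := LinearMap.finrank_range_add_finrank_ker φ
  rw [Module.finrank_fintype_fun_eq_card, hS.1 2 e, add_comm 2 e] at h1
  -- the kernel is large
  have h2 : r ≤ Module.finrank P.kb (LinearMap.ker φ) := by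
    have hmem : ∀ s, v s ∈ LinearMap.ker φ := by
      intro s
      rw [LinearMap.mem_ker, hφ]
      exact hker s
    have h3 : LinearIndependent P.kb (fun s => (⟨v s, hmem s⟩ : LinearMap.ker φ)) := by
      apply LinearIndependent.of_comp (LinearMap.ker φ).subtype
      exact hv
    have h4 := h3.fintype_card_le_finrank
    rwa [Fintype.card_fin] at h4
  -- the image is large
  have h5 : e + 1 ≤ Module.finrank P.kb (LinearMap.range φ) := by
    have hmem : ∀ i : Fin (e + 1), t ^ (i : ℕ) ∈ LinearMap.range φ := by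
      intro i
      let μ : Mon 2 e := ⟨fun j => if j = 0 then i else 0, by
        rw [Fin.sum_univ_two]
        simp
        omega⟩
      refine ⟨Pi.single μ 1, ?_⟩
      rw [hφ, Finset.sum_eq_single μ]
      · rw [Pi.single_eq_same]
        simp [w, μ]
      · intro ν _ hν
        rw [Pi.single_eq_of_ne hν]
        simp
      · intro h
        exact absurd (Finset.mem_univ μ) h
    have h3 : LinearIndependent P.kb (fun i : Fin (e + 1) =>
        (⟨t ^ (i : ℕ), hmem i⟩ : LinearMap.range φ)) := by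
      apply LinearIndependent.of_comp (LinearMap.range φ).subtype
      exact pow_indep ht e
    have h4 := h3.fintype_card_le_finrank
    rwa [Fintype.card_fin] at h4
  have h6 : d ^ 2 < e + 1 := by omega
  omega

/-- the value of a polynomial sequence in the residue field -/
theorem ev_poly {H : ℕ → ℝ} (P : Pkg H) {e : ℕ} (Q : ℕ → MvPolynomial (Fin 2) ℤ)
    (hQ : ∀ j, (Q j).totalDegree ≤ e) (hb : ∀ m, P.Bd (fun j => (Q j).coeff m)) (lam : Fin 2 → ℂ)
    (hsmall : ∀ c : ℕ, ∀ᶠ j in (hyperfilter ℕ : Filter ℕ),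
      ‖MvPolynomial.aeval lam (Q j)‖ * H j ^ c ≤ 1) :
    ∑ μ : Mon 2 e, P.evZ (fun j => (Q j).coeff (mf μ)) *
      (P.cst (lam 0) ^ (μ.1 0 : ℕ) * P.cst (lam 1) ^ (μ.1 1 : ℕ)) = 0 := by
  classical
  have hmem : ∀ μ : Mon 2 e, (fun j => (((Q j).coeff (mf μ) : ℤ) : ℂ)) *
      (fun _ => lam 0 ^ (μ.1 0 : ℕ) * lam 1 ^ (μ.1 1 : ℕ)) ∈ P.O := fun μ =>
    P.O.mul_mem (hb _) (P.const_mem _)
  have h1 : (fun j => MvPolynomial.aeval lam (Q j)) = ∑ μ : Mon 2 e,
      ((fun j => (((Q j).coeff (mf μ) : ℤ) : ℂ)) *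
      (fun _ => lam 0 ^ (μ.1 0 : ℕ) * lam 1 ^ (μ.1 1 : ℕ))) := by
    funext j
    rw [Finset.sum_apply, aeval_mon e (Q j) (hQ j) lam]
    refine Finset.sum_congr rfl fun μ _ => ?_
    simp
  have hO : (fun j => MvPolynomial.aeval lam (Q j)) ∈ P.O := by
    rw [h1]
    exact P.O.sum_mem fun μ _ => hmem μ
  have h2 : P.ev (fun j => MvPolynomial.aeval lam (Q j)) = 0 := (P.ev_eq_zero hO).2 hsmall
  rw [h1, P.ev_sum _ _ (fun μ _ => hmem μ)] at h2
  rw [← h2]
  refine Finset.sum_congr rfl fun μ _ => ?_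
  rw [P.ev_mul (hb _) (P.const_mem _)]
  have h3 : P.ev (fun _ => lam 0 ^ (μ.1 0 : ℕ) * lam 1 ^ (μ.1 1 : ℕ)) =
      P.cst (lam 0) ^ (μ.1 0 : ℕ) * P.cst (lam 1) ^ (μ.1 1 : ℕ) := by
    have h4 : (fun _ : ℕ => lam 0 ^ (μ.1 0 : ℕ) * lam 1 ^ (μ.1 1 : ℕ)) =
        (fun _ : ℕ => lam 0) ^ (μ.1 0 : ℕ) * (fun _ : ℕ => lam 1) ^ (μ.1 1 : ℕ) := by
      funext j
      simp
    rw [h4, P.ev_mul (P.O.pow_mem (P.const_mem _) _) (P.O.pow_mem (P.const_mem _) _),
      P.ev_pow (P.const_mem _), P.ev_pow (P.const_mem _)]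
    rfl
  rw [h3]
  rfl

/-- coefficient vectors of linearly independent polynomials are linearly independent -/
theorem coeff_indep {e r : ℕ} (f : Fin r → MvPolynomial (Fin 2) ℤ)
    (hdeg : ∀ s, (f s).totalDegree ≤ e)
    (hli : LinearIndependent ℚ (fun s => MvPolynomial.map (Int.castRingHom ℚ) (f s))) :
    LinearIndependent ℚ (fun (s : Fin r) (μ : Mon 2 e) => (((f s).coeff (mf μ) : ℤ) : ℚ)) := by
  classical
  rw [Fintype.linearIndependent_iff] at hli ⊢
  intro g hg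
  apply hli g
  ext m
  rw [MvPolynomial.coeff_sum, MvPolynomial.coeff_zero]
  by_cases hm : m.sum (fun _ k => k) ≤ e
  · obtain ⟨μ, rfl⟩ := exists_mf m hm
    have h1 := congrFun hg μ
    rw [Finset.sum_apply, Pi.zero_apply] at h1
    rw [← h1]
    refine Finset.sum_congr rfl fun s _ => ?_
    rw [MvPolynomial.coeff_smul, MvPolynomial.coeff_map]
    rfl
  · refine Finset.sum_eq_zero fun s _ => ?_
    rw [MvPolynomial.coeff_smul, MvPolynomial.coeff_map]
    have h2 : (f s).coeff m = 0 := by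
      by_contra h
      have h3 := MvPolynomial.le_totalDegree (MvPolynomial.mem_support_iff.2 h)
      exact hm (h3.trans (hdeg s))
    rw [h2, map_zero, smul_zero]

/-- enough independent elements in a spanning set -/
theorem exists_family {V : Type} [AddCommGroup V] [Module ℚ V] (S : Set V) (r : ℕ) (hr : 0 < r)
    (h : r ≤ Module.finrank ℚ (Submodule.span ℚ S)) :
    ∃ f : Fin r → V, (∀ s, f s ∈ S) ∧ LinearIndependent ℚ f := by
  classical
  obtain ⟨b, hb, hsp, hli⟩ := exists_linearIndependent ℚ S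
  have hfd : FiniteDimensional ℚ (Submodule.span ℚ S) :=
    FiniteDimensional.of_finrank_pos (lt_of_lt_of_le hr h)
  have hbs : ∀ x : b, (x : V) ∈ Submodule.span ℚ S := fun x => Submodule.subset_span (hb x.2)
  have hli2 : LinearIndependent ℚ (fun x : b => (⟨x, hbs x⟩ : Submodule.span ℚ S)) := by
    apply LinearIndependent.of_comp (Submodule.span ℚ S).subtype
    exact hli
  have hfin : Finite b := hli2.finite
  have := Fintype.ofFinite b
  have hcard : Fintype.card b = Module.finrank ℚ (Submodule.span ℚ S) := by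
    rw [← hsp]
    have h1 := finrank_span_eq_card hli
    rw [Subtype.range_coe] at h1
    exact h1.symm
  have hle : Fintype.card (Fin r) ≤ Fintype.card b := by
    rw [Fintype.card_fin, hcard]
    exact h
  obtain ⟨g⟩ := Function.Embedding.nonempty_of_card_le hle
  exact ⟨fun s => (g s : V), fun s => hb (g s).2, hli.comp g g.injective⟩

theorem two_le_hgt (R : MvPolynomial (Fin 2) ℤ) : 2 ≤ hgt R := by
  unfold hgt
  exact_mod_cast le_max_left _ _

theorem coeff_le_hgt (R : MvPolynomial (Fin 2) ℤ) (m : Fin 2 →₀ ℕ) :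
    |((R.coeff m : ℤ) : ℝ)| ≤ hgt R := by
  classical
  by_cases hm : m ∈ R.support
  · have h1 : (R.coeff m).natAbs ≤ R.support.sup (fun m => (R.coeff m).natAbs) :=
      Finset.le_sup (f := fun m => (R.coeff m).natAbs) hm
    have h2 : (R.coeff m).natAbs ≤ max 2 (R.support.sup (fun m => (R.coeff m).natAbs)) :=
      h1.trans (le_max_right _ _)
    unfold hgt
    rw [← Int.cast_abs, Int.abs_eq_natAbs]
    exact_mod_cast h2
  · rw [MvPolynomial.notMem_support_iff.1 hm]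
    have := two_le_hgt R
    simp
    linarith

theorem one_le_deg {R : MvPolynomial (Fin 2) ℤ} (hR : Irreducible R) (lam : Fin 2 → ℂ) {j : ℕ}
    (h : hgt R ^ (j + 1) * ‖MvPolynomial.aeval lam R‖ < 1) : 1 ≤ R.totalDegree := by
  by_contra hdeg
  have h0 : R.totalDegree = 0 := by omega
  have h1 := (MvPolynomial.totalDegree_eq_zero_iff_eq_C).1 h0
  have hne : R.coeff 0 ≠ 0 := by
    intro h2
    rw [h2, map_zero] at h1
    exact hR.ne_zero h1
  have h3 : MvPolynomial.aeval lam R = ((R.coeff 0 : ℤ) : ℂ) := by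
    conv_lhs => rw [h1]
    rw [MvPolynomial.aeval_C]
    rfl
  have h4 : (1 : ℝ) ≤ ‖((R.coeff 0 : ℤ) : ℂ)‖ := by
    rw [Complex.norm_intCast]
    exact_mod_cast Int.one_le_abs hne
  rw [h3] at h
  have h5 : 1 ≤ hgt R ^ (j + 1) := one_le_pow₀ (by linarith [two_le_hgt R])
  nlinarith

theorem small_of {x y v A : ℝ} (hx : 2 ≤ x) (hv : 0 ≤ v) (hy : 0 ≤ y) (hyx : y ≤ x ^ A)
    {j c : ℕ} (h : x ^ (j + 1) * v < 1) (hc : A * c ≤ (j + 1 : ℕ)) : v * y ^ c ≤ 1 := by
  have h0 : (0 : ℝ) ≤ x := by linarith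
  have h1 : y ^ c ≤ x ^ (j + 1) := by
    calc y ^ c ≤ (x ^ A) ^ c := pow_le_pow_left₀ hy hyx c
      _ = x ^ (A * c) := by rw [← Real.rpow_natCast, ← Real.rpow_mul h0]
      _ ≤ x ^ ((j + 1 : ℕ) : ℝ) := Real.rpow_le_rpow_of_exponent_le (by linarith) hc
      _ = x ^ (j + 1) := Real.rpow_natCast _ _
  calc v * y ^ c ≤ v * x ^ (j + 1) := mul_le_mul_of_nonneg_left h1 hv
    _ = x ^ (j + 1) * v := mul_comm _ _
    _ ≤ 1 := h.le

theorem norm_mono_le {e : ℕ} (lam : Fin 2 → ℂ) (m : Fin 2 →₀ ℕ) (hm : m.degree ≤ e)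
    (R : MvPolynomial (Fin 2) ℤ) :
    ‖MvPolynomial.aeval lam (MvPolynomial.monomial m 1 * R)‖ ≤
      ((1 + ‖lam 0‖) ^ e * (1 + ‖lam 1‖) ^ e) * ‖MvPolynomial.aeval lam R‖ := by
  have hdeg : m.degree = m 0 + m 1 := by
    rw [Finsupp.degree_eq_sum, Fin.sum_univ_two]
  rw [map_mul, norm_mul]
  refine mul_le_mul_of_nonneg_right ?_ (norm_nonneg _)
  rw [MvPolynomial.aeval_monomial, map_one, one_mul, Finsupp.prod_fintype _ _ (by simp),
    Fin.prod_univ_two, norm_mul, norm_pow, norm_pow]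
  have h0 : ‖lam 0‖ ^ m 0 ≤ (1 + ‖lam 0‖) ^ e := by
    calc ‖lam 0‖ ^ m 0 ≤ (1 + ‖lam 0‖) ^ m 0 :=
          pow_le_pow_left₀ (norm_nonneg _) (by linarith) _
      _ ≤ (1 + ‖lam 0‖) ^ e := pow_le_pow_right₀ (by linarith [norm_nonneg (lam 0)]) (by omega)
  have h1 : ‖lam 1‖ ^ m 1 ≤ (1 + ‖lam 1‖) ^ e := by
    calc ‖lam 1‖ ^ m 1 ≤ (1 + ‖lam 1‖) ^ m 1 :=
          pow_le_pow_left₀ (norm_nonneg _) (by linarith) _
      _ ≤ (1 + ‖lam 1‖) ^ e := pow_le_pow_right₀ (by linarith [norm_nonneg (lam 1)]) (by omega)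
  exact mul_le_mul h0 h1 (by positivity) (by positivity)

theorem psf (hBF : T_BF) (hPKG : T_PKG) (hBFF : T_BFF) (hMNR : T_MNR) (hKOS : T_KOS)
    (hSUMA : T_SUMA) : T_PSF := by
  classical
  intro lam hli halg d A hA
  by_contra hcon
  push Not at hcon
  have key : ∀ j : ℕ, ∃ P Q : MvPolynomial (Fin 2) ℤ, Irreducible P ∧ Irreducible Q ∧
      ¬ Associated P Q ∧ P.totalDegree ≤ d ∧ Q.totalDegree ≤ d ∧
      hgt P ^ (j + 1) * ‖MvPolynomial.aeval lam P‖ < 1 ∧
      hgt Q ^ (j + 1) * ‖MvPolynomial.aeval lam Q‖ < 1 ∧ hgt P ≤ hgt Q ∧ hgt Q < hgt P ^ A := by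
    intro j
    obtain ⟨P, Q, h1, h2, h3, h4, h5, h6, h7, h8, h9⟩ := hcon ((j + 1 : ℕ) : ℝ) (by positivity)
    rw [Real.rpow_natCast] at h6 h7
    exact ⟨P, Q, h1, h2, h3, h4, h5, h6, h7, h8, h9⟩
  choose Pj Qj hP1 hQ1 hna hPd hQd hPs hQs hPQ hQP using key
  let H : ℕ → ℝ := fun j => hgt (Qj j)
  have hH : ∀ j, 2 ≤ H j := fun j => two_le_hgt _
  obtain ⟨P⟩ := hPKG H hH
  have hPdeg : ∀ j, 1 ≤ (Pj j).totalDegree := fun j => one_le_deg (hP1 j) lam (hPs j)
  have hQdeg : ∀ j, 1 ≤ (Qj j).totalDegree := fun j => one_le_deg (hQ1 j) lam (hQs j)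
  -- both are small
  have hsm : ∀ (j c : ℕ) (R : MvPolynomial (Fin 2) ℤ), (R = Pj j ∨ R = Qj j) →
      A * c ≤ (j + 1 : ℕ) → ‖MvPolynomial.aeval lam R‖ * H j ^ c ≤ 1 := by
    intro j c R hR hc
    have hy : (0 : ℝ) ≤ H j := by linarith [hH j]
    rcases hR with rfl | rfl
    · exact small_of (two_le_hgt _) (norm_nonneg _) hy (hQP j).le (hPs j) hc
    · refine small_of (two_le_hgt _) (norm_nonneg _) hy ?_ (hQs j) hc
      calc H j = H j ^ (1 : ℝ) := (Real.rpow_one _).symm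
        _ ≤ H j ^ A := Real.rpow_le_rpow_of_exponent_le (by linarith [hH j]) hA
  have hco : ∀ (j : ℕ) (R : MvPolynomial (Fin 2) ℤ), (R = Pj j ∨ R = Qj j) →
      ∀ m, |((R.coeff m : ℤ) : ℝ)| ≤ H j := by
    intro j R hR m
    rcases hR with rfl | rfl
    · exact (coeff_le_hgt _ m).trans (hPQ j)
    · exact coeff_le_hgt _ m
  let e := 2 * d + d ^ 2
  have hch : e + 1 ≤ (e + 2).choose 2 := by
    rw [Nat.choose_two_right]
    have h1 : (e + 2) * (e + 2 - 1) = (e + 2) * (e + 1) := by congr 1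
    rw [h1]
    rw [Nat.le_div_iff_mul_le (by norm_num)]
    nlinarith
  have hde : d ^ 2 < e + 1 := by simp only [e]; omega
  let r := (e + 2).choose 2 - d ^ 2
  have hr0 : 0 < r := by simp only [r]; omega
  have hr : (e + 2).choose 2 ≤ d ^ 2 + r := by simp only [r]; omega
  have hfam : ∀ j, ∃ f : Fin r → MvPolynomial (Fin 2) ℤ,
      LinearIndependent ℚ (fun s => MvPolynomial.map (Int.castRingHom ℚ) (f s)) ∧
      ∀ s, ∃ (m : Fin 2 →₀ ℕ) (R : MvPolynomial (Fin 2) ℤ), (R = Pj j ∨ R = Qj j) ∧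
        m.degree + R.totalDegree ≤ e ∧ f s = MvPolynomial.monomial m 1 * R := by
    intro j
    have h1 := hKOS d e (Pj j) (Qj j) (hP1 j) (hQ1 j) (hna j) (hPdeg j) (hQdeg j) (hPd j) (hQd j)
      (by simp only [e]; omega)
    obtain ⟨f, hf1, hf2⟩ := exists_family _ r hr0
      (show r ≤ _ by simp only [r]; exact Nat.sub_le_iff_le_add'.2 h1)
    have h2 : ∀ s, ∃ g : MvPolynomial (Fin 2) ℤ,
        f s = MvPolynomial.map (Int.castRingHom ℚ) g ∧ ∃ (m : Fin 2 →₀ ℕ)
        (R : MvPolynomial (Fin 2) ℤ), (R = Pj j ∨ R = Qj j) ∧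
        m.degree + R.totalDegree ≤ e ∧ g = MvPolynomial.monomial m 1 * R := by
      intro s
      obtain ⟨m, ⟨h3, h4⟩ | ⟨h3, h4⟩⟩ := hf1 s
      · exact ⟨_, h4, m, Pj j, Or.inl rfl, h3, rfl⟩
      · exact ⟨_, h4, m, Qj j, Or.inr rfl, h3, rfl⟩
    choose g hg1 hg2 using h2
    refine ⟨g, ?_, hg2⟩
    have h3 : (fun s => MvPolynomial.map (Int.castRingHom ℚ) (g s)) = f :=
      funext fun s => (hg1 s).symm
    rw [h3]
    exact hf2
  choose f hfli hfs using hfam
  have hfdeg : ∀ j s, (f j s).totalDegree ≤ e := by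
    intro j s
    obtain ⟨m, R, -, h1, h2⟩ := hfs j s
    rw [h2]
    refine (MvPolynomial.totalDegree_mul _ _).trans (le_trans ?_ h1)
    refine Nat.add_le_add_right ?_ _
    exact (MvPolynomial.totalDegree_monomial_le _ _).trans (le_of_eq rfl)
  have hfco : ∀ j s m, |(((f j s).coeff m : ℤ) : ℝ)| ≤ H j := by
    intro j s n
    obtain ⟨m, R, hR, -, h2⟩ := hfs j s
    rw [h2, MvPolynomial.coeff_monomial_mul']
    split_ifs
    · rw [one_mul]
      exact hco j R hR _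
    · simp
      linarith [hH j]
  have hbd : ∀ s m, P.Bd (fun j => (f j s).coeff m) := fun s m =>
    P.bd_of_le 1 fun j => by rw [pow_one]; exact hfco j s m
  -- the bound for the monomials
  obtain ⟨c0, hc0⟩ := pow_unbounded_of_one_lt ((1 + ‖lam 0‖) ^ e * (1 + ‖lam 1‖) ^ e)
    (by norm_num : (1 : ℝ) < 2)
  have hsmall : ∀ s (c : ℕ), ∀ᶠ j in (hyperfilter ℕ : Filter ℕ),
      ‖MvPolynomial.aeval lam (f j s)‖ * H j ^ c ≤ 1 := by
    intro s c
    refine Filter.Eventually.filter_mono Nat.hyperfilter_le_atTop ?_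
    obtain ⟨j0, hj0⟩ := exists_nat_ge (A * ((c0 + c : ℕ) : ℝ))
    filter_upwards [Filter.eventually_ge_atTop j0] with j hj
    obtain ⟨m, R, hR, hdeg, h2⟩ := hfs j s
    rw [h2]
    have hm : m.degree ≤ e := by omega
    have h3 := norm_mono_le lam m hm R
    have h4 : A * ((c0 + c : ℕ) : ℝ) ≤ ((j + 1 : ℕ) : ℝ) := by
      refine hj0.trans ?_
      exact_mod_cast hj.trans (Nat.le_succ j)
    have h5 := hsm j (c0 + c) R hR h4
    have hHj : (0 : ℝ) ≤ H j := by linarith [hH j]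
    have h6 : (1 + ‖lam 0‖) ^ e * (1 + ‖lam 1‖) ^ e ≤ H j ^ c0 :=
      hc0.le.trans (pow_le_pow_left₀ (by norm_num) (hH j) c0)
    calc ‖MvPolynomial.aeval lam (MvPolynomial.monomial m 1 * R)‖ * H j ^ c
        ≤ (((1 + ‖lam 0‖) ^ e * (1 + ‖lam 1‖) ^ e) * ‖MvPolynomial.aeval lam R‖) * H j ^ c :=
          mul_le_mul_of_nonneg_right h3 (by positivity)
      _ ≤ (H j ^ c0 * ‖MvPolynomial.aeval lam R‖) * H j ^ c := by
          refine mul_le_mul_of_nonneg_right (mul_le_mul_of_nonneg_right h6 (norm_nonneg _)) ?_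
          positivity
      _ = ‖MvPolynomial.aeval lam R‖ * H j ^ (c0 + c) := by rw [pow_add]; ring
      _ ≤ 1 := h5
  -- the vectors
  have hmnr := hMNR H P r (Mon 2 e) (fun j s μ => (f j s).coeff (mf μ)) (fun s μ => hbd s _)
    (fun j => coeff_indep (f j) (hfdeg j) (hfli j))
  have hmem : ∀ s (μ : Mon 2 e), P.evZ (fun j => (f j s).coeff (mf μ)) ∈ P.kb := fun s μ =>
    P.kb.algebraMap_mem ⟨_, P.evZ_mem (hbd s (mf μ))⟩
  let v : Fin r → Mon 2 e → P.kb := fun s μ => ⟨P.evZ (fun j => (f j s).coeff (mf μ)), hmem s μ⟩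
  have hv : LinearIndependent P.kb v := by
    rw [Fintype.linearIndependent_iff] at hmnr ⊢
    intro g hg s
    have h1 := hmnr (fun s => (g s : P.F)) (by
      funext μ
      have h2 := congrFun hg μ
      rw [Finset.sum_apply, Pi.zero_apply] at h2 ⊢
      have h3 := congrArg (fun x : P.kb => (x : P.F)) h2
      simp only [Pi.smul_apply, smul_eq_mul] at h3 ⊢
      have h4 : ((∑ c : Fin r, g c * v c μ : P.kb) : P.F) =
          ∑ c : Fin r, (g c : P.F) * P.evZ (fun j => (f j c).coeff (mf μ)) :=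
        (map_sum (algebraMap P.kb P.F) (fun c => g c * v c μ) univ).trans
          (Finset.sum_congr rfl fun c _ => by rw [map_mul]; rfl)
      rw [← h4]
      exact h3) s
    exact_mod_cast h1
  have ht : P.cst (lam 0) ∉ P.kb := by
    intro hmem0
    have h1 := hBFF hBF 2 lam hli halg H P
    rw [Fintype.linearIndependent_iff] at h1
    have h2 := h1 (Fin.cons ⟨P.cst (lam 0), hmem0⟩ (Fin.cons (-1) (fun _ => 0))) (by
      rw [Fin.sum_univ_succ, Fin.sum_univ_succ]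
      simp [Algebra.smul_def]) 1
    have h3 : (-1 : P.kb) = 0 := h2
    exact neg_ne_zero.2 one_ne_zero h3
  refine dim_contra P hSUMA (transc P ht) rfl hr v hv (u := P.cst (lam 1)) ?_
  intro s
  exact ev_poly P (fun j => f j s) (fun j => hfdeg j s) (fun m => hbd s m) lam (hsmall s)

end Pool.Agent.H41.BF
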